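import Mathlib

/-!
# The Jacobson radical of a pi-UU ring is nil

Let `j` be in the radical and not nilpotent. There is a prime ideal `P` of `ℤ[X]` containing all
polynomials that vanish at `j` and no polynomial `X ^ n (1 + X g)`. In the domain `D = ℤ[X]/P` the
image `x` of `X` is nonzero, `1 + x` and `1 - x` are roots of unity, and `1 + x g(x)` is never zero.
In positive characteristic the first fact contradicts the last; in characteristic zero
`|1 + x| = |1 - x| = 1` forces `x = 0`.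
-/

namespace Pool.Agent.Results.MP_c8c065_al.JacobsonNil

open Polynomial

/-- `R` is pi-UU: every unit `u` has a positive power in `1 + Nil(R)`. -/
def IsPiUU (R : Type*) [Ring R] : Prop :=
  ∀ u : Rˣ, ∃ i : ℕ, 1 ≤ i ∧ IsNilpotent ((u : R) ^ i - 1)

theorem isUnit_one_add {R : Type*} [Ring R] {w : R} (hw : w ∈ Ring.jacobson R) :
    IsUnit (1 + w) := by
  have key : ∀ w : R, w ∈ Ring.jacobson R → ∃ z : R, z * (1 + w) = 1 := by
    intro w hw
    rw [← Ideal.jacobson_bot, Ideal.mem_jacobson_iff] at hw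
    obtain ⟨z, hz⟩ := hw 1
    refine ⟨z, ?_⟩
    rw [Ideal.mem_bot, mul_one] at hz
    rw [mul_add, mul_one, add_comm]
    exact sub_eq_zero.1 hz
  obtain ⟨z, hz⟩ := key w hw
  have hz1 : z = 1 + (-(z * w)) := by
    rw [mul_add, mul_one] at hz
    rw [← hz]; abel
  obtain ⟨y, hy⟩ := key (-(z * w)) (neg_mem (Ideal.mul_mem_left _ _ hw))
  rw [← hz1] at hy
  have h1 : y = 1 + w := by
    calc y = y * (z * (1 + w)) := by rw [hz, mul_one]
      _ = 1 + w := by rw [← mul_assoc, hy, one_mul]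
  rw [h1] at hy
  exact ⟨⟨1 + w, z, hy, hz⟩, rfl⟩

/-- The multiplicative set of polynomials `X ^ n (1 + X g)`. -/
def M : Submonoid ℤ[X] where
  carrier := {f | ∃ (n : ℕ) (g : ℤ[X]), f = X ^ n * (1 + X * g)}
  one_mem' := ⟨0, 0, by simp⟩
  mul_mem' := by
    rintro _ _ ⟨n, g, rfl⟩ ⟨m, h, rfl⟩
    exact ⟨n + m, g + h + X * g * h, by ring⟩

theorem X_mem_M : (X : ℤ[X]) ∈ M := ⟨1, 0, by simp⟩

theorem one_add_mem_M (g : ℤ[X]) : (1 + X * g : ℤ[X]) ∈ M := ⟨0, g, by simp⟩

/-- In a domain of characteristic zero, if `1 + x` and `1 - x` are roots of unity then `x = 0`. -/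
theorem eq_zero_of_charZero {D : Type*} [CommRing D] [IsDomain D] [CharZero D] {x : D} {i l : ℕ}
    (hi : 1 ≤ i) (hl : 1 ≤ l) (h1 : (1 + x) ^ i = 1) (h2 : (1 - x) ^ l = 1) : x = 0 := by
  let K := FractionRing D
  have : CharZero K := charZero_of_injective_algebraMap (IsFractionRing.injective D K)
  set y : K := algebraMap D K x with hy
  have hy1 : (1 + y) ^ i = 1 := by
    have := congrArg (algebraMap D K) h1
    simpa using this
  have hy2 : (1 - y) ^ l = 1 := by
    have := congrArg (algebraMap D K) h2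
    simpa using this
  have hf1 : aeval y ((1 + X) ^ i - 1 : ℚ[X]) = 0 := by simp [hy1]
  have hf2 : aeval y ((1 - X) ^ l - 1 : ℚ[X]) = 0 := by simp [hy2]
  have hmonic : ((1 + X) ^ i - 1 : ℚ[X]).Monic := by
    have h3 : ((1 + X : ℚ[X]) ^ i).Monic := by
      rw [add_comm]
      exact (monic_X_add_C (1 : ℚ)).pow i
    refine h3.sub_of_left ?_
    have h4 : ((1 + X : ℚ[X]) ^ i).degree = i := by
      have h5 : (1 + X : ℚ[X]).degree = 1 := by
        rw [add_comm]; exact degree_X_add_C (1 : ℚ)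
      rw [degree_pow, h5]; simp
    rw [h4, degree_one]
    exact_mod_cast hi
  have hint : IsIntegral ℚ y := ⟨_, hmonic, hf1⟩
  have hdeg : (minpoly ℚ y).degree ≠ 0 := (minpoly.degree_pos hint).ne'
  obtain ⟨z, hz⟩ := IsAlgClosed.exists_aeval_eq_zero ℂ (minpoly ℚ y) hdeg
  have hz1 : (1 + z) ^ i = 1 := by
    obtain ⟨q, hq⟩ := minpoly.dvd ℚ y hf1
    have := congrArg (aeval z) hq
    rw [map_mul, hz, zero_mul] at this
    simpa [sub_eq_zero] using this
  have hz2 : (1 - z) ^ l = 1 := by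
    obtain ⟨q, hq⟩ := minpoly.dvd ℚ y hf2
    have := congrArg (aeval z) hq
    rw [map_mul, hz, zero_mul] at this
    simpa [sub_eq_zero] using this
  have hn1 : ‖1 + z‖ = 1 := Complex.norm_eq_one_of_pow_eq_one hz1 (by omega)
  have hn2 : ‖1 - z‖ = 1 := Complex.norm_eq_one_of_pow_eq_one hz2 (by omega)
  have hz0 : z = 0 := by
    have := parallelogram_law_with_norm ℝ (1 : ℂ) z
    rw [hn1, hn2, norm_one] at this
    have h5 : ‖z‖ = 0 := by nlinarith [norm_nonneg z]
    exact norm_eq_zero.1 h5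
  rw [hz0] at hz
  have hc : (minpoly ℚ y).coeff 0 = 0 := by
    have h6 := coeff_zero_eq_aeval_zero' (A := ℂ) (minpoly ℚ y)
    rw [hz, map_eq_zero] at h6
    exact h6
  have hy0 : y = 0 := (minpoly.coeff_zero_eq_zero hint).1 hc
  exact (IsFractionRing.injective D K) (by rw [map_zero]; exact hy0)

/-- In a domain of characteristic `p`, if `1 + x` is a root of unity and `x ≠ 0`, then
`1 + x g(x) = 0` for some integral polynomial `g`. -/
theorem exists_of_charP {D : Type*} [CommRing D] [IsDomain D] (p : ℕ) [Fact p.Prime] [CharP D p]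
    {x : D} {i : ℕ} (hx : x ≠ 0) (hi : 1 ≤ i) (h1 : (1 + x) ^ i = 1) :
    ∃ g : ℤ[X], 1 + x * aeval x g = 0 := by
  let : Algebra (ZMod p) D := ZMod.algebra D p
  set f : (ZMod p)[X] := (1 + X) ^ i - 1 with hf
  have hf0 : f ≠ 0 := by
    have h3 : ((1 + X : (ZMod p)[X]) ^ i).natDegree = i := by
      rw [add_comm, natDegree_pow, show (X + 1 : (ZMod p)[X]) = X + C 1 by simp,
        natDegree_X_add_C, mul_one]
    intro h
    rw [hf, sub_eq_zero] at h
    rw [h, natDegree_one] at h3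
    omega
  have hfx : aeval x f = 0 := by simp [hf, h1]
  obtain ⟨q, hq, hXq⟩ := exists_eq_pow_rootMultiplicity_mul_and_not_dvd f hf0 0
  rw [C_0, sub_zero] at hq hXq
  have hqx : aeval x q = 0 := by
    rw [hq, map_mul, map_pow, aeval_X] at hfx
    rcases mul_eq_zero.1 hfx with h | h
    · exact absurd h (pow_ne_zero _ hx)
    · exact h
  have hc : q.coeff 0 ≠ 0 := fun h => hXq (X_dvd_iff.2 h)
  obtain ⟨g, hg⟩ := Polynomial.map_surjective (Int.castRingHom (ZMod p))
    (ZMod.ringHom_surjective _) (C (q.coeff 0)⁻¹ * q.divX)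
  refine ⟨g, ?_⟩
  have h5 : aeval x g = aeval x (C (q.coeff 0)⁻¹ * q.divX) := by
    rw [← hg, aeval_def, aeval_def, eval₂_map]
    congr 1
    exact RingHom.ext_int _ _
  rw [h5]
  have h6 : (1 + X * (C (q.coeff 0)⁻¹ * q.divX) : (ZMod p)[X]) = C (q.coeff 0)⁻¹ * q := by
    have h7 := q.divX_mul_X_add
    have h8 : (C (q.coeff 0)⁻¹ * C (q.coeff 0) : (ZMod p)[X]) = 1 := by
      rw [← C_mul, inv_mul_cancel₀ hc, C_1]
    calc (1 + X * (C (q.coeff 0)⁻¹ * q.divX) : (ZMod p)[X])
        = C (q.coeff 0)⁻¹ * (q.divX * X + C (q.coeff 0)) := by rw [mul_add, h8]; ring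
      _ = _ := by rw [h7]
  have h9 := congrArg (aeval x) h6
  rw [map_mul _ _ q, hqx, mul_zero] at h9
  simpa using h9

/-- The Jacobson radical of a pi-UU ring is nil. -/
theorem result (R : Type*) [Ring R] (hR : IsPiUU R) :
    ∀ j ∈ Ring.jacobson R, IsNilpotent j := by
  intro j hj
  by_contra hnil
  set ev : ℤ[X] →ₐ[ℤ] R := aeval j with hev
  have hunit : ∀ g : ℤ[X], IsUnit (ev (1 + X * g)) := by
    intro g
    have : ev (1 + X * g) = 1 + ev g * j := by
      rw [mul_comm X g, map_add, map_mul, map_one, hev, aeval_X]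
    rw [this]
    exact isUnit_one_add (Ideal.mul_mem_left _ _ hj)
  have hdisj : Disjoint ((RingHom.ker ev : Ideal ℤ[X]) : Set ℤ[X]) (M : Set ℤ[X]) := by
    rw [Set.disjoint_left]
    rintro f hf ⟨n, g, rfl⟩
    apply hnil
    have h1 : ev (X ^ n) * ev (1 + X * g) = 0 := by
      rw [← map_mul]; exact hf
    have h2 : ev (X ^ n) = 0 := by
      obtain ⟨u, hu⟩ := hunit g
      rw [← hu] at h1
      exact (Units.mul_left_eq_zero u).1 h1
    exact ⟨n, by simpa [hev] using h2⟩
  obtain ⟨P, hP, hKP, hPM⟩ := Ideal.exists_le_prime_disjoint _ M hdisj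
  have := hP
  have hnot : ∀ f ∈ M, f ∉ P := fun f hf hfP => Set.disjoint_left.1 hPM hfP hf
  have hroot : ∀ g : ℤ[X], ∃ i : ℕ, 1 ≤ i ∧ (1 + X * g) ^ i - 1 ∈ P := by
    intro g
    obtain ⟨u, hu⟩ := hunit g
    obtain ⟨i, hi, m, hm⟩ := hR u
    refine ⟨i, hi, ?_⟩
    apply hP.mem_of_pow_mem m
    apply hKP
    rw [RingHom.mem_ker, map_pow, map_sub, map_pow, map_one, ← hu]
    exact hm
  let D := ℤ[X] ⧸ P
  have : IsDomain D := Ideal.Quotient.isDomain P
  let x : D := Ideal.Quotient.mk P X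
  have hx : x ≠ 0 := fun h => hnot X X_mem_M (Ideal.Quotient.eq_zero_iff_mem.1 h)
  have haeval : ∀ g : ℤ[X], aeval x g = Ideal.Quotient.mk P g := by
    intro g
    have h := aeval_algHom_apply (Ideal.Quotient.mkₐ ℤ P) (X : ℤ[X]) g
    rw [aeval_X_left_apply] at h
    exact h
  obtain ⟨i, hi, h1⟩ := hroot 1
  obtain ⟨l, hl, h2⟩ := hroot (-1)
  have h1' : (1 + x) ^ i = 1 := by
    have := Ideal.Quotient.eq_zero_iff_mem.2 h1
    rw [map_sub, map_pow, map_add, map_mul, map_one, mul_one, sub_eq_zero] at this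
    exact this
  have h2' : (1 - x) ^ l = 1 := by
    have := Ideal.Quotient.eq_zero_iff_mem.2 h2
    rw [map_sub, map_pow, map_add, map_mul, map_neg, map_one, mul_neg, mul_one, sub_eq_zero,
      ← sub_eq_add_neg] at this
    exact this
  obtain ⟨p, hp⟩ := CharP.exists D
  rcases CharP.char_is_prime_or_zero D p with hpp | hpp
  · have : Fact p.Prime := ⟨hpp⟩
    obtain ⟨g, hg⟩ := exists_of_charP p hx hi h1'
    apply hnot (1 + X * g) (one_add_mem_M g)
    rw [← Ideal.Quotient.eq_zero_iff_mem, map_add, map_one, map_mul, ← haeval g]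
    exact hg
  · subst hpp
    have : CharZero D := CharP.charP_to_charZero D
    exact hx (eq_zero_of_charZero hi hl h1' h2')

end Pool.Agent.Results.MP_c8c065_al.JacobsonNil
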